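import Mathlib

/-! Definitions: homogeneous vanishing ideals, linear general position, unexpected hypersurfaces. -/

namespace Pool.Agent.R893.UH

open MvPolynomial
open scoped LinearAlgebra.Projectivization

variable {k : Type*} [Field k] {n : ℕ}

/-- The homogeneous vanishing ideal `I_Z` of a set of points of `ℙ^n`: the ideal generated by the
homogeneous polynomials vanishing at all points of `Z`. -/
noncomputable def vanIdeal (Z : Set (ℙ k (Fin (n + 1) → k))) :
    Ideal (MvPolynomial (Fin (n + 1)) k) :=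
  Ideal.span {f | (∃ e, f.IsHomogeneous e) ∧ ∀ z ∈ Z, eval z.rep f = 0}

/-- The degree `d` part `[I]_d` of an ideal `I`. -/
noncomputable def degPart (I : Ideal (MvPolynomial (Fin (n + 1)) k)) (d : ℕ) :
    Submodule k (MvPolynomial (Fin (n + 1)) k) :=
  I.restrictScalars k ⊓ homogeneousSubmodule (Fin (n + 1)) k d

/-- Linear general position: every subset of at most `n + 1` points is linearly independent. -/
def LGP (Z : Finset (ℙ k (Fin (n + 1) → k))) : Prop :=
  ∀ T : Finset (ℙ k (Fin (n + 1) → k)), T ⊆ Z → T.card ≤ n + 1 →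
    LinearIndependent k (fun z : T => (z : ℙ k (Fin (n + 1) → k)).rep)

/-- `Z` is not contained in a hyperplane. -/
def Nondegenerate (Z : Finset (ℙ k (Fin (n + 1) → k))) : Prop :=
  ∀ l : (Fin (n + 1) → k) →ₗ[k] k, (∀ z ∈ Z, l z.rep = 0) → l = 0

/-- `Z` admits an unexpected hypersurface of degree `d` with multiplicity `m` at a general
point: there is a nonempty Zariski open set `{g ≠ 0}` of `ℙ^n` such that, for every point `P`
in it, `dim [I_Z ∩ I_P^m]_d > max {0, dim [I_Z]_d - binom (m + n - 1) n}`. -/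
def AdmitsUnexpected (Z : Finset (ℙ k (Fin (n + 1) → k))) (d m : ℕ) : Prop :=
  ∃ g : MvPolynomial (Fin (n + 1)) k, g ≠ 0 ∧ (∃ e, g.IsHomogeneous e) ∧
    ∀ P : ℙ k (Fin (n + 1) → k), eval P.rep g ≠ 0 →
      max 0 ((Module.finrank k (degPart (vanIdeal (Z : Set (ℙ k (Fin (n + 1) → k)))) d) : ℤ)
          - ((m + n - 1).choose n : ℤ))
        < (Module.finrank k
          (degPart (vanIdeal (Z : Set (ℙ k (Fin (n + 1) → k))) ⊓ (vanIdeal {P}) ^ m) d) : ℤ)

end Pool.Agent.R893.UH
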