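import Pool.Agent.R893.UH.Defs

namespace Pool.Agent.R893.UH

open MvPolynomial
open scoped LinearAlgebra.Projectivization

variable {k : Type*} [Field k] {n : ℕ}

lemma eval_smul_of_homog {σ : Type*} [Fintype σ] {f : MvPolynomial σ k} {e : ℕ}
    (hf : f.IsHomogeneous e) (c : k) (x : σ → k) :
    eval (c • x) f = c ^ e * eval x f := by
  rw [eval_eq', eval_eq', Finset.mul_sum]
  refine Finset.sum_congr rfl (fun d hd => ?_)
  have h1 : ∑ i, d i = e := by
    have := hf (mem_support_iff.1 hd)
    rw [← this]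
    simp [Finsupp.weight_apply, Finsupp.sum_fintype]
  have h2 : ∏ i, (c • x) i ^ d i = c ^ e * ∏ i, x i ^ d i := by
    simp only [Pi.smul_apply, smul_eq_mul, mul_pow, Finset.prod_mul_distrib]
    rw [Finset.prod_pow_eq_pow_sum, h1]
  rw [h2]; ring

lemma mem_vanIdeal_eval {Z : Set (ℙ k (Fin (n + 1) → k))} {f : MvPolynomial (Fin (n + 1)) k}
    (hf : f ∈ vanIdeal Z) {z : ℙ k (Fin (n + 1) → k)} (hz : z ∈ Z) : eval z.rep f = 0 := by
  have h : vanIdeal Z ≤ RingHom.ker (eval z.rep) := by
    unfold vanIdeal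
    rw [Ideal.span_le]
    rintro g ⟨-, hg⟩
    exact hg z hz
  exact h hf

lemma mem_degPart_vanIdeal {Z : Set (ℙ k (Fin (n + 1) → k))}
    {f : MvPolynomial (Fin (n + 1)) k} {d : ℕ} :
    f ∈ degPart (vanIdeal Z) d ↔ f.IsHomogeneous d ∧ ∀ z ∈ Z, eval z.rep f = 0 := by
  constructor
  · rintro ⟨h1, h2⟩
    exact ⟨h2, fun z hz => mem_vanIdeal_eval h1 hz⟩
  · rintro ⟨h1, h2⟩
    exact ⟨Ideal.subset_span ⟨⟨d, h1⟩, h2⟩, h1⟩

/-- First order Taylor formula modulo the square of an ideal. -/
lemma taylor_mod_sq {σ A : Type*} [Fintype σ] [CommRing A] [Algebra k A] (I : Ideal A)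
    (a y : σ → A) (hy : ∀ i, y i ∈ I) (f : MvPolynomial σ k) :
    aeval (a + y) f - aeval a f - ∑ i, y i * aeval a (pderiv i f) ∈ I ^ 2 := by
  classical
  induction f using MvPolynomial.induction_on with
  | C c => simp
  | add f g hf hg =>
    have h := (I ^ 2).add_mem hf hg
    convert h using 1
    simp only [map_add, mul_add, Finset.sum_add_distrib]
    ring
  | mul_X f j hf =>
    have hS : ∑ i, y i * aeval a (pderiv i f) ∈ I :=
      I.sum_mem (fun i _ => I.mul_mem_right _ (hy i))
    have h1 : ∑ i, y i * aeval a (pderiv i (f * X j))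
        = (∑ i, y i * aeval a (pderiv i f)) * a j + y j * aeval a f := by
      have : ∀ i, y i * aeval a (pderiv i (f * X j))
          = y i * aeval a (pderiv i f) * a j + (if i = j then y j * aeval a f else 0) := by
        intro i
        rw [pderiv_mul, map_add, map_mul, map_mul, aeval_X, pderiv_X]
        by_cases h : i = j
        · subst h; simp; ring
        · have h' : j ≠ i := fun e => h e.symm
          simp [h, h']; ring
      rw [Finset.sum_congr rfl (fun i _ => this i), Finset.sum_add_distrib, ← Finset.sum_mul]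
      simp
    set S := ∑ i, y i * aeval a (pderiv i f) with hSdef
    rw [h1, map_mul, map_mul, aeval_X, aeval_X]
    have h2 : aeval (a + y) f * (a + y) j - aeval a f * a j - (S * a j + y j * aeval a f)
        = (aeval (a + y) f - aeval a f - S) * (a j + y j) + S * y j := by
      simp only [Pi.add_apply]; ring
    rw [h2]
    refine (I ^ 2).add_mem ((I ^ 2).mul_mem_right _ hf) ?_
    rw [pow_two]
    exact Ideal.mul_mem_mul hS (hy j)

/-- A homogeneous form of degree `e ≥ 1` all of whose first derivatives vanish at the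
representative of `P` lies in `I_P ^ 2`. -/
lemma mem_sq_of_pderiv [CharZero k] {e : ℕ} (he : e ≠ 0) {f : MvPolynomial (Fin (n + 1)) k}
    (hf : f.IsHomogeneous e) (P : ℙ k (Fin (n + 1) → k))
    (hd : ∀ i, eval P.rep (pderiv i f) = 0) : f ∈ (vanIdeal {P}) ^ 2 := by
  have : Infinite k := Infinite.of_injective (Nat.cast : ℕ → k) Nat.cast_injective
  obtain ⟨j, hj⟩ : ∃ j, P.rep j ≠ 0 := by
    by_contra h; push Not at h; exact P.rep_nonzero (funext h)
  have h0 : eval P.rep f = 0 := by
    have h1 := congrArg (eval P.rep) hf.sum_X_mul_pderiv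
    rw [map_sum] at h1
    simp only [map_mul, eval_X, hd, mul_zero, Finset.sum_const_zero, nsmul_eq_mul, map_natCast] at h1
    have h2 : (e : k) ≠ 0 := by exact_mod_cast he
    rcases mul_eq_zero.1 h1.symm with h | h
    · exact absurd h h2
    · exact h
  set p := P.rep with hp
  -- the point scaled so that its `j`-th coordinate is one
  let c : Fin (n + 1) → k := fun i => p i / p j
  have hc : c = (p j)⁻¹ • p := by ext i; simp [c, div_eq_inv_mul]
  let a : Fin (n + 1) → MvPolynomial (Fin (n + 1)) k := fun i => C (c i) * X j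
  let y : Fin (n + 1) → MvPolynomial (Fin (n + 1)) k := fun i => X i - C (c i) * X j
  have hy : ∀ i, y i ∈ vanIdeal ({P} : Set (ℙ k (Fin (n + 1) → k))) := by
    intro i
    refine Ideal.subset_span ⟨⟨1, (isHomogeneous_X k i).sub (isHomogeneous_C_mul_X _ _)⟩, ?_⟩
    rintro z rfl
    simp only [y, map_sub, map_mul, eval_X, eval_C, c]
    rw [← hp]; field_simp; ring
  have hzero : ∀ (g : MvPolynomial (Fin (n + 1)) k) (e' : ℕ), g.IsHomogeneous e' →
      eval p g = 0 → aeval a g = 0 := by
    intro g e' hg hg0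
    apply MvPolynomial.funext
    intro x
    have h1 : eval x (aeval a g) = eval (x j • c) g := by
      have : (eval x).comp (aeval a : MvPolynomial (Fin (n + 1)) k →ₐ[k] _).toRingHom
          = eval (x j • c) := by
        apply MvPolynomial.ringHom_ext
        · intro r; simp [algebraMap_eq]
        · intro i; simp [a, mul_comm]
      exact congrArg (fun φ => φ g) this
    rw [h1, hc, smul_smul, eval_smul_of_homog hg, hg0]; simp
  have ht := taylor_mod_sq (k := k) (vanIdeal ({P} : Set (ℙ k (Fin (n + 1) → k)))) a y hy f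
  have hay : a + y = X := by ext1 i; simp [a, y]
  rw [hay, aeval_X_left, AlgHom.id_apply, hzero f e hf h0] at ht
  have hs : ∑ i, y i * aeval a (pderiv i f) = 0 :=
    Finset.sum_eq_zero (fun i _ => by rw [hzero _ _ hf.pderiv (hd i), mul_zero])
  rw [hs, sub_zero, sub_zero] at ht
  exact ht

end Pool.Agent.R893.UH
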