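import Pool.Agent.R893.UH.Surf

namespace Pool.Agent.R893.UH

open MvPolynomial
open scoped LinearAlgebra.Projectivization

variable {k : Type*} [Field k]

/-- Cubic forms vanishing at the points with parameters in `S`. -/
noncomputable def V (S : Finset (Fin 2 → k)) : Submodule k (MvPolynomial (Fin 5) k) where
  carrier := {f | f.IsHomogeneous 3 ∧ ∀ a ∈ S, eval (pt a) f = 0}
  add_mem' := by
    rintro f g ⟨h1, h2⟩ ⟨h3, h4⟩
    exact ⟨h1.add h3, fun a ha => by rw [map_add, h2 a ha, h4 a ha, add_zero]⟩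
  zero_mem' := ⟨isHomogeneous_zero _ _ _, fun a _ => map_zero _⟩
  smul_mem' := by
    rintro c f ⟨h1, h2⟩
    exact ⟨(homogeneousSubmodule (Fin 5) k 3).smul_mem c h1,
      fun a ha => by rw [smul_eval, h2 a ha, mul_zero]⟩

lemma fin_of_le {n d : ℕ} {W : Submodule k (MvPolynomial (Fin n) k)}
    (h : W ≤ homogeneousSubmodule (Fin n) k d) : FiniteDimensional k W := by
  have : FiniteDimensional k (homogeneousSubmodule (Fin n) k d) :=
    Module.Finite.iff_fg.2 (homogeneousSubmodule_fg (σ := Fin n) (R := k) (n := d))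
  exact Submodule.finiteDimensional_of_le h

instance (S : Finset (Fin 2 → k)) : FiniteDimensional k (V S) :=
  fin_of_le (d := 3) (fun _ h => h.1)

instance {n : ℕ} (I : Ideal (MvPolynomial (Fin (n + 1)) k)) (d : ℕ) :
    FiniteDimensional k (degPart I d) :=
  fin_of_le (d := d) inf_le_right

/-- Linear general position of a set of parameters. -/
def LGPv (S : Finset (Fin 2 → k)) : Prop :=
  ∀ T : Finset (Fin 2 → k), T ⊆ S → T.card ≤ 5 → LinearIndepOn k pt (T : Set (Fin 2 → k))

/-- the linear form attached to a functional -/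
noncomputable def linForm (l : (Fin 5 → k) →ₗ[k] k) : MvPolynomial (Fin 5) k :=
  ∑ i, C (l (Pi.single i 1)) * X i

lemma eval_linForm (l : (Fin 5 → k) →ₗ[k] k) (x : Fin 5 → k) : eval x (linForm l) = l x := by
  have hl : l x = ∑ i, x i * l (Pi.single i 1) := by
    conv_lhs => rw [← Finset.univ_sum_single x]
    rw [map_sum]
    refine Finset.sum_congr rfl (fun i _ => ?_)
    have : Pi.single i (x i) = x i • (Pi.single i (1 : k) : Fin 5 → k) := by
      ext j; simp [Pi.single_apply]
    rw [this, map_smul, smul_eq_mul]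
  rw [hl]
  simp [linForm, mul_comm]

lemma linForm_homog (l : (Fin 5 → k) →ₗ[k] k) : (linForm l).IsHomogeneous 1 :=
  IsHomogeneous.sum _ _ _ (fun i _ => isHomogeneous_C_mul_X _ _)

open Classical in
lemma step [CharZero k] (S : Finset (Fin 2 → k)) (hS : LGPv S) (f : MvPolynomial (Fin 5) k)
    (b : Fin 2 → k) (hb : eval (pt b) f ≠ 0) :
    ∃ a, eval (pt a) f ≠ 0 ∧ LGPv (insert a S) := by
  have hinf : Infinite k := Infinite.of_injective (Nat.cast : ℕ → k) Nat.cast_injective
  have hl : ∀ T : Finset (Fin 2 → k), ∃ l : (Fin 5 → k) →ₗ[k] k, T.card ≤ 4 →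
      l ≠ 0 ∧ Submodule.span k (pt '' (T : Set (Fin 2 → k))) ≤ LinearMap.ker l := by
    intro T
    by_cases h : T.card ≤ 4
    · have h1 : Submodule.span k (pt '' (T : Set (Fin 2 → k))) < ⊤ := by
        rw [lt_top_iff_ne_top]
        intro htop
        have h2 : Module.finrank k (Submodule.span k (pt '' (T : Set (Fin 2 → k)))) ≤ 4 := by
          rw [← Finset.coe_image]
          exact (finrank_span_finset_le_card _).trans (Finset.card_image_le.trans h)
        rw [htop, finrank_top, Module.finrank_fin_fun] at h2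
        omega
      obtain ⟨l, h3, h4⟩ := Submodule.exists_le_ker_of_lt_top _ h1
      exact ⟨l, fun _ => ⟨h3, h4⟩⟩
    · exact ⟨0, fun h' => absurd h' h⟩
  choose l hl using hl
  set 𝒯 := S.powerset.filter (fun T => T.card ≤ 4) with h𝒯
  have hne : ∀ T ∈ 𝒯, bind₁ phi (linForm (l T)) ≠ 0 := by
    intro T hT h0
    rw [h𝒯, Finset.mem_filter] at hT
    apply (hl T hT.2).1
    apply lin_zero
    intro a
    rw [← eval_linForm, ← eval_phi, h0, map_zero]
  have hf0 : bind₁ phi f ≠ 0 := by
    intro h0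
    rw [← eval_phi, h0, map_zero] at hb
    exact hb rfl
  have hG : bind₁ phi f * ∏ T ∈ 𝒯, bind₁ phi (linForm (l T)) ≠ 0 :=
    mul_ne_zero hf0 (Finset.prod_ne_zero_iff.2 hne)
  obtain ⟨a, ha⟩ : ∃ a, eval a (bind₁ phi f * ∏ T ∈ 𝒯, bind₁ phi (linForm (l T))) ≠ 0 := by
    by_contra h
    push Not at h
    exact hG (MvPolynomial.funext (fun a => by rw [h a, map_zero]))
  rw [map_mul, map_prod] at ha
  have ha1 := left_ne_zero_of_mul ha
  have ha2 := Finset.prod_ne_zero_iff.1 (right_ne_zero_of_mul ha)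
  rw [eval_phi] at ha1
  refine ⟨a, ha1, ?_⟩
  intro T hT hc
  by_cases haT : a ∈ T
  · have hT' : T.erase a ⊆ S := by
      intro x hx
      rw [Finset.mem_erase] at hx
      exact (Finset.mem_insert.1 (hT hx.2)).resolve_left hx.1
    have hc' : (T.erase a).card ≤ 4 := by
      rw [Finset.card_erase_of_mem haT]; omega
    have h1 := hS (T.erase a) hT' (by omega)
    have h2 : pt a ∉ Submodule.span k (pt '' ((T.erase a : Finset _) : Set (Fin 2 → k))) := by
      intro hmem
      have h3 := (hl (T.erase a) hc').2 hmem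
      have h4 := ha2 (T.erase a) (by
        rw [h𝒯, Finset.mem_filter]; exact ⟨Finset.mem_powerset.2 hT', hc'⟩)
      rw [eval_phi, eval_linForm] at h4
      exact h4 h3
    have h5 := LinearIndepOn.insert h1 h2
    rwa [← Finset.coe_insert, Finset.insert_erase haT] at h5
  · refine hS T (fun x hx => ?_) hc
    refine (Finset.mem_insert.1 (hT hx)).resolve_left ?_
    rintro rfl; exact haT hx

lemma exists_params [CharZero k] :
    ∃ S : Finset (Fin 2 → k), LGPv S ∧ ∀ f ∈ V S, ∀ b, eval (pt b) f = 0 := by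
  classical
  have key : ∀ m : ℕ, ∀ S : Finset (Fin 2 → k), LGPv S → Module.finrank k (V S) ≤ m →
      ∃ S : Finset (Fin 2 → k), LGPv S ∧ ∀ f ∈ V S, ∀ b, eval (pt b) f = 0 := by
    intro m
    induction m with
    | zero =>
      intro S hS h0
      refine ⟨S, hS, fun f hf b => ?_⟩
      have h1 : V S = ⊥ := Submodule.finrank_eq_zero.1 (Nat.le_zero.1 h0)
      rw [h1, Submodule.mem_bot] at hf
      rw [hf, map_zero]
    | succ m ih =>
      intro S hS hm
      by_cases h : ∀ f ∈ V S, ∀ b, eval (pt b) f = 0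
      · exact ⟨S, hS, h⟩
      · push Not at h
        obtain ⟨f, hf, b, hb⟩ := h
        obtain ⟨a, ha, hL⟩ := step S hS f b hb
        refine ih (insert a S) hL ?_
        have hlt : V (insert a S) < V S := by
          refine lt_of_le_of_ne (fun g hg => ⟨hg.1, fun c hc => hg.2 c (Finset.mem_insert_of_mem hc)⟩) ?_
          intro he
          rw [← he] at hf
          exact ha (hf.2 a (Finset.mem_insert_self _ _))
        have := Submodule.finrank_lt_finrank_of_lt hlt
        omega
  refine key _ ∅ ?_ le_rfl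
  intro T hT _
  rw [Finset.subset_empty.1 hT, Finset.coe_empty]
  exact linearIndepOn_empty k pt

/-- The point of `ℙ^4` with parameters `a`. -/
noncomputable def q (a : Fin 2 → k) : ℙ k (Fin 5 → k) := Projectivization.mk k (pt a) (pt_ne_zero a)

lemma q_rep (a : Fin 2 → k) : ∃ u : kˣ, u • pt a = (q a).rep :=
  Projectivization.exists_smul_eq_mk_rep k (pt a) (pt_ne_zero a)

lemma eval_rep {f : MvPolynomial (Fin 5) k} {e : ℕ} (hf : f.IsHomogeneous e) (a : Fin 2 → k) :
    eval (q a).rep f = 0 ↔ eval (pt a) f = 0 := by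
  obtain ⟨u, hu⟩ := q_rep a
  rw [← hu, Units.smul_def, eval_smul_of_homog hf]
  simp

theorem main (k : Type*) [Field k] [CharZero k] :
    ∃ Z : Finset (ℙ k (Fin (4 + 1) → k)), Nondegenerate Z ∧ LGP Z ∧ AdmitsUnexpected Z 3 2 := by
  classical
  obtain ⟨S, hS, hV⟩ := exists_params (k := k)
  set Z : Finset (ℙ k (Fin (4 + 1) → k)) := S.image q with hZ
  have hmem : ∀ f : MvPolynomial (Fin (4 + 1)) k,
      f ∈ degPart (vanIdeal (Z : Set (ℙ k (Fin (4 + 1) → k)))) 3 ↔ f ∈ V S := by
    intro f
    rw [mem_degPart_vanIdeal]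
    constructor
    · rintro ⟨h1, h2⟩
      refine ⟨h1, fun a ha => (eval_rep h1 a).1 (h2 _ ?_)⟩
      rw [hZ, Finset.mem_coe]; exact Finset.mem_image_of_mem _ ha
    · rintro ⟨h1, h2⟩
      refine ⟨h1, fun z hz => ?_⟩
      rw [hZ, Finset.mem_coe, Finset.mem_image] at hz
      obtain ⟨a, ha, rfl⟩ := hz
      exact (eval_rep h1 a).2 (h2 a ha)
  refine ⟨Z, ?_, ?_, ?_⟩
  · intro l hl
    apply lin_zero
    intro a
    have h1 : (linForm l) ^ 3 ∈ V S := by
      refine ⟨(linForm_homog l).pow 3, fun c hc => ?_⟩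
      have h2 : (linForm l : MvPolynomial (Fin 5) k).IsHomogeneous 1 := linForm_homog l
      have h3 : eval (q c).rep (linForm l) = 0 := by
        rw [eval_linForm]
        exact hl _ (Finset.mem_image_of_mem _ hc)
      rw [map_pow, (eval_rep h2 c).1 h3]
      simp
    have h4 := hV _ h1 a
    rw [map_pow, eval_linForm] at h4
    exact pow_eq_zero_iff (by norm_num) |>.1 h4
  · intro T hT hc
    have hsec : ∀ z : ℙ k (Fin (4 + 1) → k), ∃ a, z ∈ Z → a ∈ S ∧ q a = z := by
      intro z
      by_cases h : z ∈ Z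
      · obtain ⟨a, ha, rfl⟩ := Finset.mem_image.1 h
        exact ⟨a, fun _ => ⟨ha, rfl⟩⟩
      · exact ⟨0, fun h' => absurd h' h⟩
    choose sec hsec using hsec
    have hT' : T.image sec ⊆ S := by
      intro a ha
      obtain ⟨z, hz, rfl⟩ := Finset.mem_image.1 ha
      exact (hsec z (hT hz)).1
    have hc' : (T.image sec).card ≤ 5 := Finset.card_image_le.trans hc
    have h1 : LinearIndependent k (fun x : ((T.image sec : Finset _) : Set (Fin 2 → k)) =>
        pt (x : Fin 2 → k)) := hS _ hT' hc'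
    have h2 := h1.comp (fun z : T => (⟨sec z, Finset.mem_coe.2 (Finset.mem_image_of_mem _ z.2)⟩ :
      ((T.image sec : Finset _) : Set (Fin 2 → k)))) (by
        intro z w hzw
        have h3 : sec z = sec w := congrArg Subtype.val hzw
        apply Subtype.ext
        rw [← (hsec z (hT z.2)).2, ← (hsec w (hT w.2)).2, h3])
    have hu : ∀ z : T, ∃ u : kˣ, u • pt (sec z) = (z : ℙ k (Fin (4 + 1) → k)).rep := by
      intro z
      obtain ⟨u, hu⟩ := q_rep (sec (z : ℙ k (Fin (4 + 1) → k)))
      rw [(hsec z (hT z.2)).2] at hu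
      exact ⟨u, hu⟩
    choose u hu using hu
    have h4 := h2.units_smul u
    convert h4 using 1
    funext z
    exact (hu z).symm
  · refine ⟨1, one_ne_zero, ⟨0, isHomogeneous_one _ _⟩, fun P _ => ?_⟩
    set M := degPart (vanIdeal (Z : Set (ℙ k (Fin (4 + 1) → k)))) 3 with hM
    set D := degPart (vanIdeal (Z : Set (ℙ k (Fin (4 + 1) → k))) ⊓ (vanIdeal {P}) ^ 2) 3 with hD
    -- at least five independent cubics
    have h5 : 5 ≤ Module.finrank k M := by
      have hF : ∀ i, (F i : MvPolynomial (Fin 5) k) ∈ M := by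
        intro i
        rw [hmem]
        exact ⟨F_homog i, fun a _ => F_pt i a⟩
      have h1 : LinearIndependent k (fun i : Fin 5 => (⟨F i, hF i⟩ : M)) :=
        LinearIndependent.of_comp M.subtype F_indep
      simpa using h1.fintype_card_le_finrank
    -- the gradient map
    let L : M →ₗ[k] (Fin 4 → k) := LinearMap.pi (fun i =>
      ((aeval P.rep : MvPolynomial (Fin (4 + 1)) k →ₐ[k] k).toLinearMap ∘ₗ
        (pderiv (Fin.castSucc i) : Derivation k _ _).toLinearMap) ∘ₗ M.subtype)
    have hL : ∀ (f : M) (i : Fin 4), L f i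
        = eval P.rep (pderiv (Fin.castSucc i) (f : MvPolynomial (Fin (4 + 1)) k)) := by
      intro f i
      simp [L]
    have hker : (LinearMap.ker L).map M.subtype ≤ D := by
      rintro _ ⟨f, hf, rfl⟩
      have hfV : (f : MvPolynomial (Fin (4 + 1)) k) ∈ V S := (hmem _).1 f.2
      refine ⟨⟨f.2.1, ?_⟩, f.2.2⟩
      refine mem_sq_of_pderiv (by norm_num : (3 : ℕ) ≠ 0) f.2.2 P ?_
      intro i
      refine Fin.lastCases ?_ (fun j => ?_) i
      · exact cubic_pderiv hfV.1 (hV _ hfV) _
      · have := congrFun (LinearMap.mem_ker.1 hf) j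
        rw [hL] at this
        exact this
    have hfk : Module.finrank k ((LinearMap.ker L).map M.subtype)
        = Module.finrank k (LinearMap.ker L) :=
      Submodule.finrank_map_subtype_eq M (LinearMap.ker L)
    have h6 : Module.finrank k (LinearMap.ker L) ≤ Module.finrank k D := by
      rw [← hfk]; exact Submodule.finrank_mono hker
    have h7 := LinearMap.finrank_range_add_finrank_ker L
    have h8 : Module.finrank k (LinearMap.range L) ≤ 4 := by
      have := Submodule.finrank_le (LinearMap.range L)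
      rwa [Module.finrank_fin_fun] at this
    have h9 : ((2 + 4 - 1).choose 4 : ℤ) = 5 := by decide
    rw [h9]
    omega

end Pool.Agent.R893.UH
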