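import Pool.Agent.R893.UH.Gen

/-! The cone over the nodal rational quintic `t ↦ (1 + t^5 : t : t^2 : t^4)`. -/

namespace Pool.Agent.R893.UH

open MvPolynomial
open scoped LinearAlgebra.Projectivization

variable {k : Type*} [Field k]

/-- Coordinates of the surface as polynomials in `t = X 0`, `s = X 1`. -/
noncomputable def phi : Fin 5 → MvPolynomial (Fin 2) k :=
  ![1 + X 0 ^ 5, X 0, X 0 ^ 2, X 0 ^ 4, X 1]

/-- The point of the surface with parameters `a = (t, s)`. -/
def pt (a : Fin 2 → k) : Fin 5 → k := ![1 + a 0 ^ 5, a 0, a 0 ^ 2, a 0 ^ 4, a 1]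

lemma eval_phi (a : Fin 2 → k) (f : MvPolynomial (Fin 5) k) :
    eval a (bind₁ phi f) = eval (pt a) f := by
  have : (eval a).comp (bind₁ phi : MvPolynomial (Fin 5) k →ₐ[k] _).toRingHom
      = eval (pt a) := by
    apply MvPolynomial.ringHom_ext
    · intro r; simp
    · intro i; fin_cases i <;> simp [phi, pt]
  exact congrArg (fun φ => φ f) this

lemma pt_ne_zero (a : Fin 2 → k) : pt a ≠ 0 := by
  intro h
  have h1 := congrFun h 1
  have h0 := congrFun h 0
  simp only [pt, Matrix.cons_val_one, Matrix.cons_val_zero, Pi.zero_apply] at h1 h0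
  rw [h1] at h0
  simp at h0

lemma pderiv_bind (f : MvPolynomial (Fin 5) k) :
    pderiv 1 (bind₁ phi f) = bind₁ phi (pderiv 4 f) := by
  induction f using MvPolynomial.induction_on with
  | C c => simp
  | add f g hf hg => simp [hf, hg]
  | mul_X f j hf =>
    rw [map_mul, pderiv_mul, hf, bind₁_X_right, pderiv_mul, map_add, map_mul, map_mul,
      bind₁_X_right]
    congr 1
    fin_cases j <;> simp [phi, pderiv_X, Pi.single_apply]

lemma coeffs_zero [Infinite k] {N : ℕ} (e : Fin N → k)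
    (h : ∀ t : k, ∑ i, e i * t ^ (i : ℕ) = 0) (i : Fin N) : e i = 0 := by
  have hp : (∑ i : Fin N, Polynomial.C (e i) * Polynomial.X ^ (i : ℕ) : Polynomial k) = 0 := by
    apply Polynomial.funext
    intro t
    rw [Polynomial.eval_finset_sum]
    simpa using h t
  have h1 := congrArg (fun p => Polynomial.coeff p (i : ℕ)) hp
  simp only [Polynomial.finset_sum_coeff, Polynomial.coeff_C_mul_X_pow, Polynomial.coeff_zero] at h1
  rw [Finset.sum_eq_single i] at h1
  · simpa using h1
  · intro b _ hb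
    rw [if_neg]; intro h; exact hb (Fin.ext h.symm)
  · intro h; exact absurd (Finset.mem_univ i) h

/-- No linear form vanishes on the surface. -/
lemma lin_zero [CharZero k] (l : (Fin 5 → k) →ₗ[k] k) (h : ∀ a, l (pt a) = 0) : l = 0 := by
  have : Infinite k := Infinite.of_injective (Nat.cast : ℕ → k) Nat.cast_injective
  have hl : ∀ x : Fin 5 → k, l x = ∑ i, x i * l (Pi.single i 1) := by
    intro x
    conv_lhs => rw [← Finset.univ_sum_single x]
    rw [map_sum]
    refine Finset.sum_congr rfl (fun i _ => ?_)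
    have : Pi.single i (x i) = x i • (Pi.single i (1 : k) : Fin 5 → k) := by
      ext j; simp [Pi.single_apply]
    rw [this, map_smul, smul_eq_mul]
  set c : Fin 5 → k := fun i => l (Pi.single i 1) with hc
  have key : ∀ t s : k, (1 + t ^ 5) * c 0 + t * c 1 + t ^ 2 * c 2 + t ^ 4 * c 3 + s * c 4 = 0 := by
    intro t s
    have := h ![t, s]
    rw [hl] at this
    simpa [pt, Fin.sum_univ_five] using this
  have h0 : c 0 = 0 := by simpa using key 0 0
  have h4 : c 4 = 0 := by simpa [h0] using key 0 1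
  have hq : ∀ t : k, ∑ i, (![0, c 1, c 2, 0, c 3] : Fin 5 → k) i * t ^ (i : ℕ) = 0 := by
    intro t
    have := key t 0
    simp only [Fin.sum_univ_five]
    simp
    linear_combination this - (1 + t ^ 5) * h0
  have e := coeffs_zero _ hq
  have h1 : c 1 = 0 := e 1
  have h2 : c 2 = 0 := e 2
  have h3 : c 3 = 0 := e 4
  ext i
  fin_cases i
  · exact h0
  · exact h1
  · exact h2
  · exact h3
  · exact h4

/-- A symmetric quadratic form vanishing on the surface is zero. -/
lemma quad_zero [CharZero k] (d : Fin 5 → Fin 5 → k) (hs : ∀ i j, d i j = d j i)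
    (h : ∀ a, ∑ i, ∑ j, d i j * (pt a i * pt a j) = 0) (i j : Fin 5) : d i j = 0 := by
  have : Infinite k := Infinite.of_injective (Nat.cast : ℕ → k) Nat.cast_injective
  have key : ∀ t s : k,
      d 0 0 * (1 + t ^ 5) ^ 2 + d 1 1 * t ^ 2 + d 2 2 * t ^ 4 + d 3 3 * t ^ 8 + d 4 4 * s ^ 2
      + 2 * (d 0 1 * ((1 + t ^ 5) * t) + d 0 2 * ((1 + t ^ 5) * t ^ 2)
        + d 0 3 * ((1 + t ^ 5) * t ^ 4) + d 0 4 * ((1 + t ^ 5) * s)
        + d 1 2 * (t * t ^ 2) + d 1 3 * (t * t ^ 4) + d 1 4 * (t * s)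
        + d 2 3 * (t ^ 2 * t ^ 4) + d 2 4 * (t ^ 2 * s) + d 3 4 * (t ^ 4 * s)) = 0 := by
    intro t s
    have := h ![t, s]
    simp only [pt, Fin.sum_univ_five] at this
    simp at this
    rw [hs 1 0, hs 2 0, hs 3 0, hs 4 0, hs 2 1, hs 3 1, hs 4 1, hs 3 2, hs 4 2, hs 4 3] at this
    linear_combination this
  have hA : ∀ t : k, ∑ i, (![d 0 0, 2 * d 0 1, d 1 1 + 2 * d 0 2, 2 * d 1 2,
      d 2 2 + 2 * d 0 3, 2 * d 0 0 + 2 * d 1 3, 2 * d 0 1 + 2 * d 2 3, 2 * d 0 2, d 3 3,
      2 * d 0 3, d 0 0] : Fin 11 → k) i * t ^ (i : ℕ) = 0 := by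
    intro t
    have := key t 0
    simp only [Fin.sum_univ_succ]
    simp
    linear_combination this
  have hB : ∀ t : k, ∑ i, (![d 0 4, d 1 4, d 2 4, 0, d 3 4, d 0 4] : Fin 6 → k) i
      * t ^ (i : ℕ) = 0 := by
    intro t
    have h1 := key t 1
    have h2 := key t (-1)
    have h4 : (4 : k) ≠ 0 := by norm_num
    simp only [Fin.sum_univ_succ]
    simp
    apply mul_left_cancel₀ h4
    linear_combination h1 - h2
  have h44 : d 4 4 = 0 := by
    have h1 := key 0 1
    have h2 := key 0 (-1)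
    have h3 := key 0 0
    have h2' : (2 : k) ≠ 0 := by norm_num
    apply mul_left_cancel₀ h2'
    linear_combination h1 + h2 - 2 * h3
  have two : (2 : k) ≠ 0 := by norm_num
  have eA := coeffs_zero _ hA
  have eB := coeffs_zero _ hB
  have a00 : d 0 0 = 0 := eA 0
  have a01 : d 0 1 = 0 := by
    have := eA 1
    exact (mul_eq_zero.1 (show 2 * d 0 1 = 0 from this)).resolve_left two
  have a02 : d 0 2 = 0 := (mul_eq_zero.1 (show 2 * d 0 2 = 0 from eA 7)).resolve_left two
  have a03 : d 0 3 = 0 := (mul_eq_zero.1 (show 2 * d 0 3 = 0 from eA 9)).resolve_left two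
  have a12 : d 1 2 = 0 := (mul_eq_zero.1 (show 2 * d 1 2 = 0 from eA 3)).resolve_left two
  have a11 : d 1 1 = 0 := by
    have h : d 1 1 + 2 * d 0 2 = 0 := eA 2
    linear_combination h - 2 * a02
  have a22 : d 2 2 = 0 := by
    have h : d 2 2 + 2 * d 0 3 = 0 := eA 4
    linear_combination h - 2 * a03
  have a13 : d 1 3 = 0 := by
    have h : 2 * d 0 0 + 2 * d 1 3 = 0 := eA 5
    apply mul_left_cancel₀ two
    linear_combination h - 2 * a00
  have a23 : d 2 3 = 0 := by
    have h : 2 * d 0 1 + 2 * d 2 3 = 0 := eA 6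
    apply mul_left_cancel₀ two
    linear_combination h - 2 * a01
  have a33 : d 3 3 = 0 := eA 8
  have a04 : d 0 4 = 0 := eB 0
  have a14 : d 1 4 = 0 := eB 1
  have a24 : d 2 4 = 0 := eB 2
  have a34 : d 3 4 = 0 := eB 4
  fin_cases i <;> fin_cases j <;> first | assumption | (rw [hs]; assumption)

/-- A quadratic form vanishing on the surface vanishes identically. -/
lemma homog_two_zero [CharZero k] {g : MvPolynomial (Fin 5) k} (hg : g.IsHomogeneous 2)
    (h : ∀ a, eval (pt a) g = 0) (x : Fin 5 → k) : eval x g = 0 := by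
  -- second derivatives are constants
  have hc : ∀ i j, ∃ c : k, pderiv j (pderiv i g) = C c := by
    intro i j
    have h0 : (pderiv j (pderiv i g)).IsHomogeneous 0 := hg.pderiv.pderiv
    rw [← totalDegree_zero_iff_isHomogeneous, totalDegree_eq_zero_iff_eq_C] at h0
    exact ⟨_, h0⟩
  choose c hc using hc
  have hE : ∀ y : Fin 5 → k, 2 * eval y g = ∑ i, ∑ j, c i j * (y i * y j) := by
    intro y
    have h1 := congrArg (eval y) hg.sum_X_mul_pderiv
    simp only [map_sum, map_mul, eval_X, nsmul_eq_mul, map_natCast] at h1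
    have h2 : ∀ i, eval y (pderiv i g) = ∑ j, y j * c i j := by
      intro i
      have h3 : (pderiv i g).IsHomogeneous 1 := hg.pderiv
      have h4 := congrArg (eval y) h3.sum_X_mul_pderiv
      simp only [map_sum, map_mul, eval_X, one_smul, hc, eval_C] at h4
      exact h4.symm
    have h5 : ((2 : ℕ) : k) = 2 := by norm_num
    rw [h5] at h1
    rw [← h1]
    refine Finset.sum_congr rfl (fun i _ => ?_)
    rw [h2, Finset.mul_sum]
    exact Finset.sum_congr rfl (fun j _ => by ring)
  have hE' : ∀ y : Fin 5 → k, 4 * eval y g = ∑ i, ∑ j, (c i j + c j i) * (y i * y j) := by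
    intro y
    have h1 : ∑ i, ∑ j, (c i j + c j i) * (y i * y j)
        = ∑ i, ∑ j, c i j * (y i * y j) + ∑ i, ∑ j, c j i * (y i * y j) := by
      simp only [add_mul, Finset.sum_add_distrib]
    have h2 : ∑ i, ∑ j, c j i * (y i * y j) = ∑ i, ∑ j, c i j * (y i * y j) := by
      rw [Finset.sum_comm]
      exact Finset.sum_congr rfl (fun i _ => Finset.sum_congr rfl (fun j _ => by ring))
    rw [h1, h2, ← hE y]; ring
  have hz := quad_zero (fun i j => c i j + c j i) (fun i j => by ring)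
    (fun a => by rw [← hE', h a, mul_zero])
  have := hE' x
  simp only [hz, zero_mul, Finset.sum_const_zero] at this
  have h4 : (4 : k) ≠ 0 := by norm_num
  exact (mul_eq_zero.1 this).resolve_left h4

/-- Cubic forms vanishing on the surface do not involve the last variable. -/
lemma cubic_pderiv [CharZero k] {f : MvPolynomial (Fin 5) k} (hf : f.IsHomogeneous 3)
    (h : ∀ a, eval (pt a) f = 0) (x : Fin 5 → k) : eval x (pderiv 4 f) = 0 := by
  have : Infinite k := Infinite.of_injective (Nat.cast : ℕ → k) Nat.cast_injective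
  have h0 : bind₁ phi f = 0 := by
    apply MvPolynomial.funext
    intro a
    rw [eval_phi, h a, map_zero]
  apply homog_two_zero hf.pderiv
  intro a
  rw [← eval_phi, ← pderiv_bind, h0, map_zero, map_zero]

/-- Five cubics through the surface. -/
noncomputable def F : Fin 5 → MvPolynomial (Fin 5) k :=
  ![X 1 ^ 2 * X 3 - X 2 ^ 3,
    X 0 * X 1 * X 2 - X 1 ^ 3 - X 2 ^ 2 * X 3,
    X 0 * X 1 * X 3 - X 1 * X 2 ^ 2 - X 2 * X 3 ^ 2,
    X 0 * X 2 ^ 2 - X 1 ^ 2 * X 2 - X 1 * X 3 ^ 2,
    X 0 ^ 2 * X 2 - X 0 * X 1 ^ 2 - X 1 * X 2 * X 3 - X 3 ^ 3]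

lemma F_homog (i : Fin 5) : (F i : MvPolynomial (Fin 5) k).IsHomogeneous 3 := by
  have X1 : ∀ i, (X i : MvPolynomial (Fin 5) k).IsHomogeneous 1 := fun i => isHomogeneous_X k i
  fin_cases i
  · exact (((X1 1).pow 2).mul (X1 3)).sub ((X1 2).pow 3)
  · exact ((((X1 0).mul (X1 1)).mul (X1 2)).sub ((X1 1).pow 3)).sub (((X1 2).pow 2).mul (X1 3))
  · exact ((((X1 0).mul (X1 1)).mul (X1 3)).sub ((X1 1).mul ((X1 2).pow 2))).sub
      ((X1 2).mul ((X1 3).pow 2))
  · exact (((X1 0).mul ((X1 2).pow 2)).sub (((X1 1).pow 2).mul (X1 2))).sub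
      ((X1 1).mul ((X1 3).pow 2))
  · exact (((((X1 0).pow 2).mul (X1 2)).sub ((X1 0).mul ((X1 1).pow 2))).sub
      (((X1 1).mul (X1 2)).mul (X1 3))).sub ((X1 3).pow 3)

lemma F_pt (i : Fin 5) (a : Fin 2 → k) : eval (pt a) (F i) = 0 := by
  fin_cases i <;> simp [F, pt] <;> ring

lemma F_indep : LinearIndependent k (F : Fin 5 → MvPolynomial (Fin 5) k) := by
  rw [Fintype.linearIndependent_iff]
  intro c hc
  have ev : ∀ x : Fin 5 → k, ∑ i, c i * eval x (F i) = 0 := by
    intro x
    have := congrArg (eval x) hc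
    simpa [smul_eval] using this
  have h0 : c 0 = 0 := by
    have := ev ![0, 0, 1, 0, 0]
    simpa [Fin.sum_univ_five, F] using this
  have h1 : c 1 = 0 := by
    have := ev ![0, 1, 0, 0, 0]
    simpa [Fin.sum_univ_five, F] using this
  have h4 : c 4 = 0 := by
    have := ev ![0, 0, 0, 1, 0]
    simpa [Fin.sum_univ_five, F] using this
  have h3 : c 3 = 0 := by
    have := ev ![1, 0, 1, 0, 0]
    simpa [Fin.sum_univ_five, F, h0, h4] using this
  have h2 : c 2 = 0 := by
    have := ev ![1, 1, 0, 1, 0]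
    simpa [Fin.sum_univ_five, F, h0, h1, h3, h4] using this
  intro i
  fin_cases i <;> assumption

end Pool.Agent.R893.UH
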